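import Pool.Agent.W544.KF.Defs2

set_option autoImplicit false

open CategoryTheory MonoidalCategory

namespace Pool.Agent.W306.KF

open Pool.Agent.W544.KF

universe w v u

/-- one-sided part of the step -/
theorem alg_half {F R : Type*} [Field F] [CharZero F] [Ring R] [Algebra F R] (s : F)
    (hs : s * s = 1) (n : ℕ) (e e' σ τ : R) (hc : e' * σ = σ * e')
    (hee' : e * e' = e) (he'e : e' * e = e) (he : e * e = e) (hσ : σ * σ = 1)
    (hbr : σ * τ * σ = τ * σ * τ) (heτ : e * τ = s • e) (hτe : τ * e = s • e)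
    (hdef : e = ((n : F) + 1)⁻¹ • (e' + (s * (n : F)) • (e' * τ * e'))) :
    (((n : F) + 1) • (σ * e * σ * e) = e + (n : F) • (e' * τ * σ * e)) ∧
    (((n : F) + 1) • (e * σ * e) = σ * e + (s * (n : F)) • (e' * τ * σ * e)) ∧
    (((n : F) + 1) • (e * σ * e * σ * e) = e + (s * (n : F)) • (e * σ * e)) := by
  have n1 : ((n : F) + 1) ≠ 0 := by exact_mod_cast Nat.succ_ne_zero n
  have hd : ((n : F) + 1) • e = e' + (s * (n : F)) • (e' * τ * e') := by
    conv_lhs => rw [hdef]
    rw [smul_smul, mul_inv_cancel₀ n1, one_smul]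
  have a1 : σ * e' * σ * e = e := by
    rw [← hc, mul_assoc e' σ σ, hσ, mul_one, he'e]
  have a2 : σ * (e' * τ * e') * σ * e = s • (e' * τ * σ * e) := by
    calc σ * (e' * τ * e') * σ * e = (σ * e') * τ * (e' * σ) * e := by noncomm_ring
      _ = (e' * σ) * τ * (σ * e') * e := by rw [← hc]
      _ = e' * (σ * τ * σ) * (e' * e) := by noncomm_ring
      _ = e' * (τ * σ * τ) * e := by rw [hbr, he'e]
      _ = e' * τ * σ * (τ * e) := by noncomm_ring
      _ = _ := by rw [hτe, mul_smul_comm]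
  have a3 : e' * σ * e = σ * e := by rw [hc, mul_assoc, he'e]
  have a4 : e' * τ * e' * σ * e = e' * τ * σ * e := by
    rw [mul_assoc (e' * τ) e' σ, hc, ← mul_assoc, mul_assoc _ e' e, he'e]
  have K1 : ((n : F) + 1) • (σ * e * σ * e) = e + (n : F) • (e' * τ * σ * e) := by
    calc ((n : F) + 1) • (σ * e * σ * e) = σ * (((n : F) + 1) • e) * σ * e := by
          simp only [mul_smul_comm, smul_mul_assoc]
      _ = σ * e' * σ * e + (s * (n : F)) • (σ * (e' * τ * e') * σ * e) := by
          rw [hd]; simp only [mul_add, add_mul, mul_smul_comm, smul_mul_assoc]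
      _ = _ := by
          rw [a1, a2, smul_smul]
          congr 2
          calc s * (n : F) * s = (s * s) * n := by ring
            _ = n := by rw [hs, one_mul]
  have K2 : ((n : F) + 1) • (e * σ * e) = σ * e + (s * (n : F)) • (e' * τ * σ * e) := by
    calc ((n : F) + 1) • (e * σ * e) = (((n : F) + 1) • e) * σ * e := by
          simp only [smul_mul_assoc]
      _ = e' * σ * e + (s * (n : F)) • (e' * τ * e' * σ * e) := by
          rw [hd]; simp only [add_mul, smul_mul_assoc]
      _ = _ := by rw [a3, a4]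
  refine ⟨K1, K2, ?_⟩
  calc ((n : F) + 1) • (e * σ * e * σ * e) = e * (((n : F) + 1) • (σ * e * σ * e)) := by
        simp only [mul_smul_comm, mul_assoc]
    _ = e * e + (n : F) • ((e * e') * τ * σ * e) := by
        rw [K1]; simp only [mul_add, mul_smul_comm, mul_assoc]
    _ = e + (n : F) • ((e * τ) * σ * e) := by rw [he, hee']
    _ = _ := by
        rw [heτ]; simp only [smul_mul_assoc, smul_smul]
        rw [mul_comm (n : F) s]

theorem alg_step {F R : Type*} [Field F] [CharZero F] [Ring R] [Algebra F R] (s : F)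
    (hs : s * s = 1) (n : ℕ) (e e' σ τ : R) (hc : e' * σ = σ * e')
    (hee' : e * e' = e) (he'e : e' * e = e) (he : e * e = e) (hσ : σ * σ = 1)
    (hbr : σ * τ * σ = τ * σ * τ) (heτ : e * τ = s • e) (hτe : τ * e = s • e)
    (hdef : e = ((n : F) + 1)⁻¹ • (e' + (s * (n : F)) • (e' * τ * e'))) (y : R)
    (hy : y = ((n : F) + 2)⁻¹ • (e + (s * ((n : F) + 1)) • (e * σ * e))) :
    y * y = y ∧ e * y = y ∧ y * e = y ∧ σ * y = s • y ∧ y * σ = s • y := by
  have n1 : ((n : F) + 1) ≠ 0 := by exact_mod_cast Nat.succ_ne_zero n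
  have n2 : ((n : F) + 2) ≠ 0 := by
    have : ((n + 2 : ℕ) : F) ≠ 0 := by exact_mod_cast Nat.succ_ne_zero (n + 1)
    simpa using this
  obtain ⟨K1, K2, K5⟩ := alg_half s hs n e e' σ τ hc hee' he'e he hσ hbr heτ hτe hdef
  -- the mirror images, from the opposite ring
  obtain ⟨L1, L2, -⟩ := alg_half (R := Rᵐᵒᵖ) s hs n (MulOpposite.op e) (MulOpposite.op e')
    (MulOpposite.op σ) (MulOpposite.op τ)
    (by rw [← MulOpposite.op_mul, ← MulOpposite.op_mul, hc])
    (by rw [← MulOpposite.op_mul, he'e]) (by rw [← MulOpposite.op_mul, hee'])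
    (by rw [← MulOpposite.op_mul, he])
    (by rw [← MulOpposite.op_mul, hσ, MulOpposite.op_one])
    (by
      simp only [← MulOpposite.op_mul]
      rw [← mul_assoc, ← mul_assoc, hbr])
    (by rw [← MulOpposite.op_mul, hτe, MulOpposite.op_smul])
    (by rw [← MulOpposite.op_mul, heτ, MulOpposite.op_smul])
    (by
      simp only [← MulOpposite.op_mul, ← MulOpposite.op_smul, ← MulOpposite.op_add]
      rw [← mul_assoc]
      exact congrArg _ hdef)
  simp only [← MulOpposite.op_mul, ← MulOpposite.op_smul, ← MulOpposite.op_add,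
    MulOpposite.op_inj, ← mul_assoc] at L1 L2
  have hY : ((n : F) + 2) • y = e + (s * ((n : F) + 1)) • (e * σ * e) := by
    rw [hy, smul_smul, mul_inv_cancel₀ n2, one_smul]
  have hey : e * y = y := by
    rw [hy]
    simp only [mul_smul_comm, mul_add, ← mul_assoc, he]
  have hye : y * e = y := by
    rw [hy]
    simp only [smul_mul_assoc, add_mul, mul_assoc, he]
  have hσy : σ * y = s • y := by
    have h1 : ((n : F) + 2) • (σ * y) = ((n : F) + 2) • (s • y) := by
      rw [← mul_smul_comm, hY, smul_comm _ s, hY]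
      have : σ * (e + (s * ((n : F) + 1)) • (e * σ * e)) =
          σ * e + s • (((n : F) + 1) • (σ * e * σ * e)) := by
        simp only [mul_add, mul_smul_comm, smul_smul, mul_assoc]
      rw [this, K1]
      have : s • (e + (s * ((n : F) + 1)) • (e * σ * e)) =
          s • e + (s * s) • (((n : F) + 1) • (e * σ * e)) := by
        simp only [smul_add, smul_smul, mul_assoc]
      rw [this, K2, hs, one_smul, smul_add, smul_smul]
      abel
    have := congrArg (fun z => ((n : F) + 2)⁻¹ • z) h1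
    simpa only [smul_smul, inv_mul_cancel₀ n2, one_smul, one_mul, ← mul_assoc] using this
  have hyσ : y * σ = s • y := by
    have h1 : ((n : F) + 2) • (y * σ) = ((n : F) + 2) • (s • y) := by
      rw [← smul_mul_assoc, hY, smul_comm _ s, hY]
      have : (e + (s * ((n : F) + 1)) • (e * σ * e)) * σ =
          e * σ + s • (((n : F) + 1) • (e * σ * e * σ)) := by
        simp only [add_mul, smul_mul_assoc, smul_smul, mul_assoc]
      rw [this, L1]
      have : s • (e + (s * ((n : F) + 1)) • (e * σ * e)) =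
          s • e + (s * s) • (((n : F) + 1) • (e * σ * e)) := by
        simp only [smul_add, smul_smul, mul_assoc]
      rw [this, L2, hs, one_smul, smul_add, smul_smul]
      abel
    have := congrArg (fun z => ((n : F) + 2)⁻¹ • z) h1
    simpa only [smul_smul, inv_mul_cancel₀ n2, one_smul, one_mul, ← mul_assoc] using this
  refine ⟨?_, hey, hye, hσy, hyσ⟩
  -- y*y = y : y = (n+2)^{-1}(e + s(n+1) e σ e), y e = y, y σ = s y
  have h1 : ((n : F) + 2) • (y * y) = ((n : F) + 2) • y := by
    calc ((n : F) + 2) • (y * y) = y * (((n : F) + 2) • y) := by rw [mul_smul_comm]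
      _ = y * e + (s * ((n : F) + 1)) • (((y * e) * σ) * e) := by
          rw [hY]; simp only [mul_add, mul_smul_comm, mul_assoc]
      _ = y + (s * ((n : F) + 1)) • (s • y) := by
          rw [hye, hyσ, smul_mul_assoc, hye]
      _ = _ := by
          rw [smul_smul]
          have : s * ((n : F) + 1) * s = (n : F) + 1 := by
            calc s * ((n : F) + 1) * s = (s * s) * ((n : F) + 1) := by ring
              _ = _ := by rw [hs, one_mul]
          rw [this]
          have : ((n : F) + 2) • y = y + ((n : F) + 1) • y := by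
            rw [← one_smul F y, smul_smul, smul_smul, ← add_smul]
            congr 1
            ring
          rw [this]
  have := congrArg (fun z => ((n : F) + 2)⁻¹ • z) h1
  simpa only [smul_smul, inv_mul_cancel₀ n2, one_smul] using this


theorem cat_step {F : Type w} [Field F] [CharZero F] {D : Type u} [Category.{v} D]
    [Preadditive D] [Linear F D] {X : D} (s : F)
    (hs : s * s = 1) (n : ℕ) (e e' σ τ : X ⟶ X) (hc : e' ≫ σ = σ ≫ e')
    (hee' : e ≫ e' = e) (he'e : e' ≫ e = e) (he : e ≫ e = e) (hσ : σ ≫ σ = 𝟙 X)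
    (hbr : σ ≫ τ ≫ σ = τ ≫ σ ≫ τ) (heτ : e ≫ τ = s • e) (hτe : τ ≫ e = s • e)
    (hdef : e = ((n : F) + 1)⁻¹ • (e' + (s * (n : F)) • (e' ≫ τ ≫ e'))) (y : X ⟶ X)
    (hy : y = ((n : F) + 2)⁻¹ • (e + (s * ((n : F) + 1)) • (e ≫ σ ≫ e))) :
    y ≫ y = y ∧ e ≫ y = y ∧ y ≫ e = y ∧ σ ≫ y = s • y ∧ y ≫ σ = s • y := by
  obtain ⟨h1, h2, h3, h4, h5⟩ := alg_step (R := End X) s hs n e e' σ τ hc.symm he'e hee' he hσ
    hbr hτe heτ hdef y hy
  exact ⟨h1, h3, h2, h5, h4⟩

theorem wl_formula {F : Type w} [Field F] {D : Type u} [Category.{v} D]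
    [MonoidalCategory D] [Preadditive D] [MonoidalPreadditive D] [Linear F D]
    [MonoidalLinear F D] (M : D) {Y : D} (a b : F) (e τ : Y ⟶ Y) :
    M ◁ (a • (e + b • (e ≫ τ ≫ e))) = a • (M ◁ e + b • (M ◁ e ≫ M ◁ τ ≫ M ◁ e)) := by
  rw [MonoidalLinear.whiskerLeft_smul, MonoidalPreadditive.whiskerLeft_add,
    MonoidalLinear.whiskerLeft_smul, MonoidalCategory.whiskerLeft_comp,
    MonoidalCategory.whiskerLeft_comp]

theorem comm_formula {F : Type w} [Field F] {D : Type u} [Category.{v} D]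
    [Preadditive D] [Linear F D] {X : D} (a b : F) (g e σ : X ⟶ X) (he : g ≫ e = e ≫ g)
    (hσ : g ≫ σ = σ ≫ g) :
    g ≫ (a • (e + b • (e ≫ σ ≫ e))) = (a • (e + b • (e ≫ σ ≫ e))) ≫ g := by
  simp only [Linear.comp_smul, Linear.smul_comp, Preadditive.comp_add, Preadditive.add_comp,
    Category.assoc]
  rw [← he, ← reassoc_of% hσ, ← reassoc_of% he]

theorem tens_formula {D : Type u} [Category.{v} D]
    [MonoidalCategory D] {M Y : D} (f : M ⟶ M) (g e : Y ⟶ Y) (h : g ≫ e = e ≫ g) :
    (f ⊗ₘ g) ≫ M ◁ e = M ◁ e ≫ (f ⊗ₘ g) := by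
  rw [← MonoidalCategory.id_tensorHom, MonoidalCategory.tensorHom_comp_tensorHom,
    MonoidalCategory.tensorHom_comp_tensorHom, h, Category.comp_id, Category.id_comp]

theorem base_step {F : Type w} [Field F] [CharZero F] {D : Type u} [Category.{v} D]
    [Preadditive D] [Linear F D] {X : D} (s : F) (hs : s * s = 1) (σ y : X ⟶ X)
    (hσ : σ ≫ σ = 𝟙 X) (hy : y = (2 : F)⁻¹ • (𝟙 X + s • σ)) :
    y ≫ y = y ∧ σ ≫ y = s • y ∧ y ≫ σ = s • y := by
  have h2 : (2 : F) ≠ 0 := two_ne_zero
  have hl : σ ≫ y = s • y := by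
    rw [hy]
    simp only [Linear.comp_smul, Preadditive.comp_add, hσ, smul_add, smul_smul, Category.comp_id]
    rw [show s * ((2 : F)⁻¹ * s) = (s * s) * (2 : F)⁻¹ by ring, hs, one_mul, add_comm,
      mul_comm s]
  have hr : y ≫ σ = s • y := by
    rw [hy]
    simp only [Linear.smul_comp, Preadditive.add_comp, hσ, smul_add, smul_smul, Category.id_comp]
    rw [show s * ((2 : F)⁻¹ * s) = (s * s) * (2 : F)⁻¹ by ring, hs, one_mul, add_comm,
      mul_comm s]
  refine ⟨?_, hl, hr⟩
  have : y ≫ y = (2 : F)⁻¹ • (y + s • (σ ≫ y)) := by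
    conv_lhs => rw [hy, Linear.smul_comp, Preadditive.add_comp, Linear.smul_comp, ← hy,
      Category.id_comp]
  rw [this, hl, smul_smul, hs, one_smul, ← two_smul F, smul_smul, inv_mul_cancel₀ h2, one_smul]

theorem sy_core (h : S_sw.{v, u}) (F : Type w) [Field F] [CharZero F] (D : Type u) [Category.{v} D]
    [MonoidalCategory D] [SymmetricCategory D] [Preadditive D] [MonoidalPreadditive D]
    [Linear F D] [MonoidalLinear F D] (s : F) (hs : s * s = 1) (M : D) (n : ℕ) :
    sy F s M n ≫ sy F s M n = sy F s M n ∧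
    sy F s M (n + 1) ≫ sy F s M (n + 1) = sy F s M (n + 1) ∧
    M ◁ sy F s M n ≫ sy F s M (n + 1) = sy F s M (n + 1) ∧
    sy F s M (n + 1) ≫ M ◁ sy F s M n = sy F s M (n + 1) ∧
    sw M n ≫ sy F s M (n + 1) = s • sy F s M (n + 1) ∧
    sy F s M (n + 1) ≫ sw M n = s • sy F s M (n + 1) := by
  obtain ⟨hsw, hcomm, hbraid, -⟩ := h D M
  induction n with
  | zero =>
    have h0 : sy F s M 0 = 𝟙 (pw M 0) := rfl
    have h2 : (2 : F) ≠ 0 := two_ne_zero
    have hy : sy F s M 1 = (2 : F)⁻¹ • (𝟙 (pw M 1) + s • sw M 0) := by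
      have : sy F s M 1 = (((0 : ℕ) : F) + 2)⁻¹ • ((M ◁ sy F s M 0) +
        (s * (((0 : ℕ) : F) + 1)) • (M ◁ sy F s M 0 ≫ sw M 0 ≫ M ◁ sy F s M 0)) := rfl
      rw [this, h0, MonoidalCategory.whiskerLeft_id]
      simp only [Nat.cast_zero, zero_add, mul_one]
      congr 2
      congr 1
      exact (Category.id_comp _).trans (Category.comp_id _)
    obtain ⟨b1, b2, b3⟩ := base_step (X := pw M 1) s hs (sw M 0) (sy F s M 1) (hsw 0) hy
    refine ⟨Category.id_comp _, b1, ?_, ?_, b2, b3⟩
    · rw [h0, MonoidalCategory.whiskerLeft_id]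
      exact Category.id_comp _
    · rw [h0, MonoidalCategory.whiskerLeft_id]
      exact Category.comp_id _
  | succ n ih =>
    obtain ⟨i0, i1, i2, i3, i4, i5⟩ := ih
    have key := cat_step (F := F) (X := pw M (n + 2)) s hs (n + 1) (M ◁ sy F s M (n + 1))
      (M ◁ (M ◁ sy F s M n)) (sw M (n + 1)) (M ◁ sw M n)
      (hcomm n (sy F s M n)).symm
      ((MonoidalCategory.whiskerLeft_comp M _ _).symm.trans (congrArg (fun z => M ◁ z) i3))
      ((MonoidalCategory.whiskerLeft_comp M _ _).symm.trans (congrArg (fun z => M ◁ z) i2))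
      ((MonoidalCategory.whiskerLeft_comp M _ _).symm.trans (congrArg (fun z => M ◁ z) i1))
      (hsw (n + 1)) (hbraid n)
      (((MonoidalCategory.whiskerLeft_comp M _ _).symm.trans
        (congrArg (fun z => M ◁ z) i5)).trans (MonoidalLinear.whiskerLeft_smul M s _))
      (((MonoidalCategory.whiskerLeft_comp M _ _).symm.trans
        (congrArg (fun z => M ◁ z) i4)).trans (MonoidalLinear.whiskerLeft_smul M s _))
      (by
        have c1 : (((n + 1 : ℕ) : F) + 1) = (n : F) + 2 := by push_cast; ring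
        have c2 : (((n + 1 : ℕ) : F)) = (n : F) + 1 := by push_cast; ring
        rw [c1, c2]
        exact wl_formula M (Y := pw M (n + 1)) (((n : F) + 2)⁻¹) (s * ((n : F) + 1))
          (M ◁ sy F s M n) (sw M n))
      (sy F s M (n + 2)) rfl
    obtain ⟨k1, k2, k3, k4, k5⟩ := key
    exact ⟨i1, k1, k2, k3, k4, k5⟩

theorem sy_all (h : S_sw.{v, u}) : S_sy.{w, v, u} := by
  intro F _ _ D _ _ _ _ _ _ _ s hs M
  refine ⟨fun n => (sy_core h F D s hs M n).1, fun n => (sy_core h F D s hs M n).2.2.1,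
    fun n => (sy_core h F D s hs M n).2.2.2.1, fun n => (sy_core h F D s hs M n).2.2.2.2.1, ?_⟩
  intro n f
  obtain ⟨-, -, -, hpm⟩ := h D M
  induction n with
  | zero => exact (Category.comp_id _).trans (Category.id_comp _).symm
  | succ n ih =>
    exact comm_formula (X := pw M (n + 1)) (((n : F) + 2)⁻¹) (s * ((n : F) + 1)) (pm f (n + 1))
      (M ◁ sy F s M n) (sw M n) (tens_formula f (pm f n) (sy F s M n) ih) (hpm n f)

end Pool.Agent.W306.KF
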